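import Mathlib

/-! Functions `ℕ → A` all of whose iterated differences `Δ^m` are divisible by `π^m`. -/

namespace H43Sun

open Finset

variable {A : Type*} [CommRing A]

/-- `Nm π m f`: the first `m` iterated differences of `f` are divisible by `π, π², …`. -/
def Nm (π : A) : ℕ → (ℕ → A) → Prop
  | 0, _ => True
  | m + 1, f => ∃ g : ℕ → A, (∀ k, f (k + 1) = f k + π * g k) ∧ Nm π m g

/-- All orders. -/
def Ac (π : A) (f : ℕ → A) : Prop := ∀ m, Nm π m f

variable {π : A}

theorem Nm.down {m : ℕ} {f : ℕ → A} (h : Nm π (m + 1) f) : Nm π m f := by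
  induction m generalizing f with
  | zero => trivial
  | succ m ih =>
    obtain ⟨g, hg, h2⟩ := h
    exact ⟨g, hg, ih h2⟩

theorem Nm.const (a : A) (m : ℕ) : Nm π m (fun _ => a) := by
  induction m generalizing a with
  | zero => trivial
  | succ m ih => exact ⟨fun _ => 0, fun k => by ring, ih 0⟩

theorem Nm.add {m : ℕ} {f g : ℕ → A} (hf : Nm π m f) (hg : Nm π m g) :
    Nm π m (fun k => f k + g k) := by
  induction m generalizing f g with
  | zero => trivial
  | succ m ih =>
    obtain ⟨f', hf', h1⟩ := hf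
    obtain ⟨g', hg', h2⟩ := hg
    refine ⟨fun k => f' k + g' k, fun k => ?_, ih h1 h2⟩
    show f (k + 1) + g (k + 1) = f k + g k + π * (f' k + g' k)
    rw [hf' k, hg' k]; ring

theorem Nm.smul {m : ℕ} {f : ℕ → A} (a : A) (hf : Nm π m f) : Nm π m (fun k => a * f k) := by
  induction m generalizing f with
  | zero => trivial
  | succ m ih =>
    obtain ⟨f', hf', h1⟩ := hf
    refine ⟨fun k => a * f' k, fun k => ?_, ih h1⟩
    show a * f (k + 1) = a * f k + π * (a * f' k)
    rw [hf' k]; ring

theorem Nm.shift {m : ℕ} {f : ℕ → A} (j : ℕ) (hf : Nm π m f) : Nm π m (fun k => f (k + j)) := by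
  induction m generalizing f with
  | zero => trivial
  | succ m ih =>
    obtain ⟨f', hf', h1⟩ := hf
    refine ⟨fun k => f' (k + j), fun k => ?_, ih h1⟩
    show f (k + 1 + j) = f (k + j) + π * f' (k + j)
    rw [show k + 1 + j = k + j + 1 by ring, hf' (k + j)]

theorem Nm.sum {ι : Type*} {m : ℕ} (s : Finset ι) {f : ι → ℕ → A} (hf : ∀ i ∈ s, Nm π m (f i)) :
    Nm π m (fun k => ∑ i ∈ s, f i k) := by
  classical
  induction s using Finset.induction_on with
  | empty => simpa using Nm.const (π := π) (0 : A) m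
  | insert i s hi ih =>
    have h1 := hf i (by simp)
    have h2 := ih (fun j hj => hf j (by simp [hj]))
    have := h1.add h2
    simpa [Finset.sum_insert hi] using this

theorem Nm.mul {m : ℕ} {f g : ℕ → A} (hf : Nm π m f) (hg : Nm π m g) :
    Nm π m (fun k => f k * g k) := by
  induction m generalizing f g with
  | zero => trivial
  | succ m ih =>
    have hf0 := hf.down
    have hg0 := hg.down
    obtain ⟨f', hf', h1⟩ := hf
    obtain ⟨g', hg', h2⟩ := hg
    refine ⟨fun k => f (k + 1) * g' k + f' k * g k, fun k => ?_, ?_⟩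
    · show f (k + 1) * g (k + 1) = f k * g k + π * (f (k + 1) * g' k + f' k * g k)
      rw [hf' k, hg' k]; ring
    · exact (ih (hf0.shift 1) h2).add (ih h1 hg0)

/-- Dilation `k ↦ P k + w`. -/
theorem Nm.dil {m : ℕ} (P : ℕ) {f : ℕ → A} (hf : Nm π m f) (w : ℕ) :
    Nm π m (fun k => f (P * k + w)) := by
  induction m generalizing f w with
  | zero => trivial
  | succ m ih =>
    obtain ⟨g, hg, h1⟩ := hf
    refine ⟨fun k => ∑ j ∈ range P, g (P * k + (w + j)), fun k => ?_, ?_⟩
    · show f (P * (k + 1) + w) = f (P * k + w) + π * ∑ j ∈ range P, g (P * k + (w + j))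
      have key : ∀ Q : ℕ, f (P * k + w + Q) =
          f (P * k + w) + π * ∑ j ∈ range Q, g (P * k + (w + j)) := by
        intro Q
        induction Q with
        | zero => simp
        | succ Q ihQ =>
          rw [← add_assoc, hg (P * k + w + Q), ihQ, Finset.sum_range_succ,
            show P * k + w + Q = P * k + (w + Q) by ring]
          ring
      rw [show P * (k + 1) + w = P * k + w + P by ring, key P]
    · exact Nm.sum (range P) (fun j _ => ih h1 (w + j))

theorem Nm.inv {m : ℕ} {f g : ℕ → A} (hf : Nm π m f) (hfg : ∀ k, f k * g k = 1) :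
    Nm π m g := by
  induction m with
  | zero => trivial
  | succ m ih =>
    have hg0 := ih hf.down
    obtain ⟨f', hf', h1⟩ := hf
    refine ⟨fun k => (-1) * (f' k * (g k * g (k + 1))), fun k => ?_, ?_⟩
    · show g (k + 1) = g k + π * ((-1) * (f' k * (g k * g (k + 1))))
      have e1 := hfg k
      have e2 := hfg (k + 1)
      rw [hf' k] at e2
      -- g(k+1) = g(k+1) * (f k * g k), g k = g k * ((f k + π f') g(k+1))
      calc g (k + 1) = g (k + 1) * (f k * g k) := by rw [e1, mul_one]
        _ = g k * ((f k + π * f' k) * g (k + 1)) + π * ((-1) * (f' k * (g k * g (k + 1)))) := by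
            ring
        _ = _ := by rw [e2, mul_one]
    · exact (h1.mul (hg0.mul (hg0.shift 1))).smul (-1)

/-- Cumulative products of `1 + π ψ`. -/
theorem Nm.cumprod {m : ℕ} {γ ψ : ℕ → A} (hγ : ∀ c, γ (c + 1) = γ c * (1 + π * ψ c))
    (hψ : Nm π m ψ) : Nm π m γ := by
  induction m with
  | zero => trivial
  | succ m ih =>
    have h0 := ih hψ.down
    refine ⟨fun k => γ k * ψ k, fun k => ?_, h0.mul hψ.down⟩
    rw [hγ k]; ring

/-- Dilation by `P = π` of a function whose difference is nice. -/
theorem Nm.dil_one {m : ℕ} (P : ℕ) (hP : (P : A) = π) {W g : ℕ → A}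
    (hW : ∀ k, W (k + 1) = W k + g k) (hg : Nm π (m + 1) g) (w : ℕ) :
    Nm π (m + 1) (fun k => W (P * k + w)) := by
  obtain ⟨g1, hg1, h1⟩ := id hg
  refine ⟨fun k => g (P * k + w) + ∑ j ∈ range P, ∑ i ∈ range j, g1 (P * k + (w + i)),
    fun k => ?_, ?_⟩
  · show W (P * (k + 1) + w) = W (P * k + w) +
      π * (g (P * k + w) + ∑ j ∈ range P, ∑ i ∈ range j, g1 (P * k + (w + i)))
    have key1 : ∀ Q : ℕ, W (P * k + w + Q) =
        W (P * k + w) + ∑ j ∈ range Q, g (P * k + w + j) := by
      intro Q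
      induction Q with
      | zero => simp
      | succ Q ihQ =>
        rw [← add_assoc, hW (P * k + w + Q), ihQ, Finset.sum_range_succ]
        ring
    have key2 : ∀ Q : ℕ, g (P * k + w + Q) =
        g (P * k + w) + π * ∑ i ∈ range Q, g1 (P * k + (w + i)) := by
      intro Q
      induction Q with
      | zero => simp
      | succ Q ihQ =>
        rw [← add_assoc, hg1 (P * k + w + Q), ihQ, Finset.sum_range_succ,
          show P * k + w + Q = P * k + (w + Q) by ring]
        ring
    rw [show P * (k + 1) + w = P * k + w + P by ring, key1 P,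
      Finset.sum_congr rfl (fun j _ => key2 j), Finset.sum_add_distrib, Finset.sum_const,
      Finset.card_range, nsmul_eq_mul, hP, ← Finset.mul_sum]
    ring
  · refine (hg.down.dil P w).add (Nm.sum _ fun j _ => Nm.sum _ fun i _ => h1.dil P (w + i))

/-! All orders. -/

theorem Ac.const (a : A) : Ac π (fun _ => a) := fun m => Nm.const a m

theorem Ac.add {f g : ℕ → A} (hf : Ac π f) (hg : Ac π g) : Ac π (fun k => f k + g k) :=
  fun m => (hf m).add (hg m)

theorem Ac.smul {f : ℕ → A} (a : A) (hf : Ac π f) : Ac π (fun k => a * f k) :=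
  fun m => (hf m).smul a

theorem Ac.mul {f g : ℕ → A} (hf : Ac π f) (hg : Ac π g) : Ac π (fun k => f k * g k) :=
  fun m => (hf m).mul (hg m)

theorem Ac.sum {ι : Type*} (s : Finset ι) {f : ι → ℕ → A} (hf : ∀ i ∈ s, Ac π (f i)) :
    Ac π (fun k => ∑ i ∈ s, f i k) :=
  fun m => Nm.sum s fun i hi => hf i hi m

theorem Ac.prod {ι : Type*} (s : Finset ι) {f : ι → ℕ → A} (hf : ∀ i ∈ s, Ac π (f i)) :
    Ac π (fun k => ∏ i ∈ s, f i k) := by
  classical
  induction s using Finset.induction_on with
  | empty => simpa using Ac.const (π := π) (1 : A)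
  | insert i s hi ih =>
    have h1 := hf i (by simp)
    have h2 := ih (fun j hj => hf j (by simp [hj]))
    simpa [Finset.prod_insert hi] using h1.mul h2

theorem Ac.pow {f : ℕ → A} (hf : Ac π f) (e : ℕ) : Ac π (fun k => f k ^ e) := by
  induction e with
  | zero => simpa using Ac.const (π := π) (1 : A)
  | succ e ih => simpa [pow_succ] using ih.mul hf

theorem Ac.shift {f : ℕ → A} (hf : Ac π f) (j : ℕ) : Ac π (fun k => f (k + j)) :=
  fun m => (hf m).shift j

theorem Ac.dil {f : ℕ → A} (hf : Ac π f) (P w : ℕ) : Ac π (fun k => f (P * k + w)) :=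
  fun m => (hf m).dil P w

theorem Ac.inv {f g : ℕ → A} (hf : Ac π f) (hfg : ∀ k, f k * g k = 1) : Ac π g :=
  fun m => (hf m).inv hfg

theorem Ac.cumprod {γ ψ : ℕ → A} (hγ : ∀ c, γ (c + 1) = γ c * (1 + π * ψ c))
    (hψ : Ac π ψ) : Ac π γ :=
  fun m => Nm.cumprod hγ (hψ m)

theorem Ac.dil_one (P : ℕ) (hP : (P : A) = π) {W g : ℕ → A}
    (hW : ∀ k, W (k + 1) = W k + g k) (hg : Ac π g) (w : ℕ) :
    Ac π (fun k => W (P * k + w)) := by
  intro m
  exact (Nm.dil_one P hP hW (hg (m + 1)) w).down

theorem Ac.lin (a b : A) : Ac π (fun k => a + π * b * (k : A)) := by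
  intro m
  cases m with
  | zero => trivial
  | succ m =>
    refine ⟨fun _ => b, fun k => ?_, Nm.const b m⟩
    show a + π * b * ((k + 1 : ℕ) : A) = _
    push_cast; ring

/-- The difference of a nice function is `π` times a nice function (in a domain). -/
theorem Ac.exists_diff [IsDomain A] (hπ : π ≠ 0) {f : ℕ → A} (hf : Ac π f) :
    ∃ g : ℕ → A, (∀ k, f (k + 1) = f k + π * g k) ∧ Ac π g := by
  obtain ⟨g, hg, -⟩ := hf 1
  refine ⟨g, hg, fun m => ?_⟩
  obtain ⟨g', hg', h'⟩ := hf (m + 1)
  have : g = g' := by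
    funext k
    have h1 := hg k
    rw [hg' k] at h1
    have h2 : π * g' k = π * g k := by
      exact add_left_cancel h1
    exact (mul_left_cancel₀ hπ h2).symm
  rw [this]; exact h'

/-- Evaluation of an integer polynomial at `π k`. -/
theorem Ac.poly (Q : Polynomial ℤ) :
    Ac π (fun k => Polynomial.eval₂ (Int.castRingHom A) (π * (k : A)) Q) := by
  induction Q using Polynomial.induction_on' with
  | add P Q hP hQ => simpa [Polynomial.eval₂_add] using hP.add hQ
  | monomial n a =>
    simp only [Polynomial.eval₂_monomial]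
    have h1 : Ac π (fun k : ℕ => (0 : A) + π * 1 * (k : A)) := Ac.lin 0 1
    have h2 := (h1.pow n).smul ((Int.castRingHom A) a)
    simpa using h2

end H43Sun
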