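import Mathlib
import Pool.Agent.H43Sun.Diff

/-! The terms `∏_{i<k} (a+iN)/((i+1)N)` in `ℤ_p` and their factorisation at `k = pc+w`. -/

namespace H43Sun

open Finset

/-- The base-`p` digit of `-a/N` (for `N ≡ 1 mod p`). -/
def dg (p a : ℕ) : ℕ := (p - a % p) % p

/-- `-a/N = dg + p (-(nx)/N)`. -/
def nx (p N a : ℕ) : ℕ := (a + dg p a * N) / p

theorem dg_lt {p : ℕ} (hp : 0 < p) (a : ℕ) : dg p a < p := Nat.mod_lt _ hp

theorem dvd_add_dg {p : ℕ} (hp : 0 < p) (a : ℕ) : p ∣ a + dg p a := by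
  unfold dg
  have h1 : a % p < p := Nat.mod_lt _ hp
  rcases Nat.eq_zero_or_pos (a % p) with h | h
  · rw [h, Nat.sub_zero, Nat.mod_self, Nat.add_zero]
    exact Nat.dvd_of_mod_eq_zero h
  · rw [Nat.mod_eq_of_lt (by omega)]
    have h2 := Nat.div_add_mod a p
    refine ⟨a / p + 1, ?_⟩
    rw [Nat.mul_add, Nat.mul_one]
    omega

theorem p_mul_nx {p N : ℕ} (hp : 0 < p) (hN : N % p = 1) (a : ℕ) :
    p * nx p N a = a + dg p a * N := by
  unfold nx
  apply Nat.mul_div_cancel'
  have h1 := dvd_add_dg hp a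
  have h2 : N = p * (N / p) + 1 := by
    have := Nat.div_add_mod N p
    omega
  have h3 : a + dg p a * N = (a + dg p a) + p * (dg p a * (N / p)) := by
    conv_lhs => rw [h2]
    ring
  rw [h3]
  exact Dvd.dvd.add h1 (Dvd.intro _ rfl)

section
variable (p : ℕ) [hp : Fact p.Prime] (N a : ℕ)

/-- `∏_{i<k} (i+1)N`. -/
noncomputable def pden (k : ℕ) : ℤ_[p] := ∏ i ∈ range k, (((i : ℤ_[p]) + 1) * N)

/-- `∏_{i<k} (a+iN)`. -/
noncomputable def pnum (k : ℕ) : ℤ_[p] := ∏ i ∈ range k, ((a : ℤ_[p]) + i * N)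

/-- the unit part of one full block in the numerator -/
noncomputable def num (u c : ℕ) : ℤ_[p] :=
  ∏ s ∈ (range p).erase u, ((a : ℤ_[p]) + s * N + p * N * c)

/-- partial block of the numerator -/
noncomputable def nn (w c : ℕ) : ℤ_[p] := ∏ s ∈ range w, ((a : ℤ_[p]) + s * N + p * N * c)

/-- partial block of the denominator -/
noncomputable def dd (w c : ℕ) : ℤ_[p] := ∏ s ∈ range w, (((s : ℤ_[p]) + 1) * N + p * N * c)

theorem pden_add (c w : ℕ) : pden p N (p * c + w) = pden p N (p * c) * dd p N w c := by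
  unfold pden dd
  rw [prod_range_add]
  congr 1
  refine prod_congr rfl fun s _ => ?_
  push_cast; ring

theorem pnum_add (c w : ℕ) : pnum p N a (p * c + w) = pnum p N a (p * c) * nn p N a w c := by
  unfold pnum nn
  rw [prod_range_add]
  congr 1
  refine prod_congr rfl fun s _ => ?_
  push_cast; ring

theorem pden_mul (c : ℕ) : pden p N (p * c) =
    (p : ℤ_[p]) ^ c * pden p N c * ∏ b ∈ range c, dd p N (p - 1) b := by
  have hp1 : 1 ≤ p := hp.out.one_lt.le
  induction c with
  | zero => simp [pden]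
  | succ c ih =>
    rw [show p * (c + 1) = p * c + p by ring, pden_add, ih, prod_range_succ]
    have e1 : dd p N p c = dd p N (p - 1) c * (p * ((c + 1) * N)) := by
      have : p = (p - 1) + 1 := by omega
      unfold dd
      conv_lhs => rw [show range p = range ((p - 1) + 1) by rw [← this]]
      rw [prod_range_succ]
      congr 1
      have h3 : ((p - 1 : ℕ) : ℤ_[p]) = (p : ℤ_[p]) - 1 := by
        rw [Nat.cast_sub hp1]; simp
      rw [h3]; ring
    have e2 : pden p N (c + 1) = pden p N c * (((c : ℤ_[p]) + 1) * N) := by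
      unfold pden; rw [prod_range_succ]
    rw [e1, e2]; ring

theorem nn_full (c u : ℕ) (hu : u < p) :
    nn p N a p c = ((a : ℤ_[p]) + u * N + p * N * c) * num p N a u c := by
  unfold nn num
  rw [mul_prod_erase (range p) (fun s => ((a : ℤ_[p]) + s * N + p * N * c)) (by simpa using hu)]

theorem pnum_mul (a' u : ℕ) (hu : u < p) (ha : p * a' = a + u * N) (c : ℕ) :
    pnum p N a (p * c) = (p : ℤ_[p]) ^ c * pnum p N a' c * ∏ b ∈ range c, num p N a u b := by
  have ha2 : (p : ℤ_[p]) * a' = a + u * N := by exact_mod_cast congrArg (Nat.cast (R := ℤ_[p])) ha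
  induction c with
  | zero => simp [pnum]
  | succ c ih =>
    rw [show p * (c + 1) = p * c + p by ring, pnum_add, ih, prod_range_succ,
      nn_full p N a c u hu]
    have e2 : pnum p N a' (c + 1) = pnum p N a' c * ((a' : ℤ_[p]) + c * N) := by
      unfold pnum; rw [prod_range_succ]
    have e3 : ((a : ℤ_[p]) + u * N + p * N * c) = p * (a' + c * N) := by
      rw [← ha2]; ring
    rw [e2, e3]; ring

theorem isUnit_of_coprime {m : ℕ} (hm : ¬ p ∣ m) : IsUnit (m : ℤ_[p]) := by
  rw [PadicInt.isUnit_iff, PadicInt.norm_natCast_eq_one_iff]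
  exact (Nat.Prime.coprime_iff_not_dvd hp.out).2 hm

theorem isUnit_dd (hN : N % p = 1) (w : ℕ) (hw : w < p) (c : ℕ) : IsUnit (dd p N w c) := by
  unfold dd
  rw [IsUnit.prod_iff]
  intro s hs
  have hs' : s < w := by simpa using hs
  have : (((s : ℤ_[p]) + 1) * N + p * N * c) = (((s + 1 + p * c) * N : ℕ) : ℤ_[p]) := by
    push_cast; ring
  rw [this]
  apply isUnit_of_coprime
  intro hd
  rcases (Nat.Prime.dvd_mul hp.out).1 hd with h | h
  · have : p ∣ s + 1 := (Nat.dvd_add_left (Dvd.intro c rfl)).1 h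
    have := Nat.le_of_dvd (by omega) this
    omega
  · rw [Nat.dvd_iff_mod_eq_zero] at h
    omega

theorem pden_ne_zero (hN : N % p = 1) (k : ℕ) : pden p N k ≠ 0 := by
  unfold pden
  rw [prod_ne_zero_iff]
  intro i _
  have hN0 : N ≠ 0 := by
    rintro rfl; simp at hN
  have : (((i : ℤ_[p]) + 1) * N) = (((i + 1) * N : ℕ) : ℤ_[p]) := by push_cast; ring
  rw [this]
  exact_mod_cast Nat.mul_ne_zero (by omega) hN0

/-- Cumulative unit factor. -/
noncomputable def gam (u c : ℕ) : ℤ_[p] :=
  ∏ b ∈ range c, (num p N a u b * Ring.inverse (dd p N (p - 1) b))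

/-- Partial block factor. -/
noncomputable def psi (w c : ℕ) : ℤ_[p] := nn p N a w c * Ring.inverse (dd p N w c)

/-- `b` is the sequence `∏_{i<k} (a+iN)/((i+1)N)`. -/
def IsB (b : ℕ → ℤ_[p]) : Prop := ∀ k, pden p N k * b k = pnum p N a k

theorem factor (hN : N % p = 1) {a' u : ℕ} (hu : u < p) (ha : p * a' = a + u * N)
    {z z' : ℤ_[p]} {c w : ℕ} (hw : w < p) (hz' : pden p N c * z' = pnum p N a' c) :
    pden p N (p * c + w) * z = pnum p N a (p * c + w) ↔
      z = z' * gam p N a u c * psi p N a w c := by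
  have hp1 : 1 ≤ p := hp.out.one_lt.le
  set D := ∏ b ∈ range c, dd p N (p - 1) b with hD
  have hDu : IsUnit D := by
    rw [hD, IsUnit.prod_iff]
    intro b _
    exact isUnit_dd p N hN (p - 1) (by omega) b
  have hwu := isUnit_dd p N hN w hw c
  have hgam : gam p N a u c * D = ∏ b ∈ range c, num p N a u b := by
    unfold gam
    rw [hD, ← prod_mul_distrib]
    refine prod_congr rfl fun b _ => ?_
    rw [mul_assoc, Ring.inverse_mul_cancel _ (isUnit_dd p N hN (p - 1) (by omega) b), mul_one]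
  have hpsi : psi p N a w c * dd p N w c = nn p N a w c := by
    unfold psi
    rw [mul_assoc, Ring.inverse_mul_cancel _ hwu, mul_one]
  have hpne : (p : ℤ_[p]) ^ c * pden p N c ≠ 0 := by
    refine mul_ne_zero (pow_ne_zero _ ?_) (pden_ne_zero p N hN c)
    exact_mod_cast hp.out.ne_zero
  rw [pden_add, pnum_add, pden_mul, pnum_mul p N a a' u hu ha, ← hz', ← hD, ← hgam, ← hpsi]
  have hne : (p : ℤ_[p]) ^ c * pden p N c * D * dd p N w c ≠ 0 :=
    mul_ne_zero (mul_ne_zero hpne hDu.ne_zero) hwu.ne_zero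
  constructor
  · intro h
    apply mul_left_cancel₀ hne
    rw [h]; ring
  · intro h
    rw [h]; ring

theorem exists_isB (hN : N % p = 1) (k : ℕ) :
    ∀ a : ℕ, ∃ z : ℤ_[p], pden p N k * z = pnum p N a k := by
  have hp1 : 1 < p := hp.out.one_lt
  induction k using Nat.strong_induction_on with
  | _ k ih =>
    intro a
    rcases Nat.eq_zero_or_pos k with rfl | hk
    · exact ⟨1, by simp [pden, pnum]⟩
    · have hc : k / p < k := Nat.div_lt_self hk hp1
      obtain ⟨z', hz'⟩ := ih _ hc (nx p N a)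
      have h := factor p N a hN (dg_lt (by omega) a) (p_mul_nx (by omega) hN a)
        (z := z' * gam p N a (dg p a) (k / p) * psi p N a (k % p) (k / p))
        (Nat.mod_lt k (by omega)) hz'
      rw [Nat.div_add_mod] at h
      exact ⟨_, h.2 rfl⟩

/-- The integral sequence. -/
noncomputable def bz (hN : N % p = 1) (k : ℕ) : ℤ_[p] :=
  Classical.choose (exists_isB p N hN k a)

theorem bz_spec (hN : N % p = 1) (k : ℕ) : pden p N k * bz p N a hN k = pnum p N a k :=
  Classical.choose_spec (exists_isB p N hN k a)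

theorem bz_factor (hN : N % p = 1) (c w : ℕ) (hw : w < p) :
    bz p N a hN (p * c + w) =
      bz p N (nx p N a) hN c * gam p N a (dg p a) c * psi p N a w c := by
  have hp1 : 1 < p := hp.out.one_lt
  exact (factor p N a hN (dg_lt (by omega) a) (p_mul_nx (by omega) hN a) hw
    (bz_spec p N (nx p N a) hN c)).1 (bz_spec p N a hN (p * c + w))

/-- Above the digit the factor is divisible by `p`. -/
theorem dvd_psi (hN : N % p = 1) (c w : ℕ) (hw : dg p a < w) :
    (p : ℤ_[p]) ∣ psi p N a w c := by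
  have hp1 : 1 < p := hp.out.one_lt
  unfold psi nn
  refine Dvd.dvd.mul_right ?_ _
  refine Dvd.dvd.trans ?_ (dvd_prod_of_mem _ (a := dg p a) (by simpa using hw))
  have ha := p_mul_nx (by omega) hN a
  have ha2 : (p : ℤ_[p]) * (nx p N a) = a + (dg p a) * N := by
    exact_mod_cast congrArg (Nat.cast (R := ℤ_[p])) ha
  exact ⟨nx p N a + N * c, by rw [mul_add, ha2]; ring⟩

end

end H43Sun
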