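import Mathlib
import Pool.Agent.H43Sun.Terms

/-! Definitions for the counterexample (MP_0ba4ac_nt). -/

namespace H43Sun

open Finset

/-- The binomial coefficient `x(x-1)⋯(x-k+1)/k!` of a rational number. -/
def gbinom (x : ℚ) (k : ℕ) : ℚ := (∏ j ∈ range k, (x - j)) / k.factorial

/-- The sum `S(n)` of the problem. -/
def S (n : ℕ) : ℚ := ∑ k ∈ range n, gbinom (-1 / (n + 1)) k ^ (n + 1)

/-- The digit test: run `f` digits of `-a/N` and `M` in base `p`; `z` of the digits of `-a/N`
must be at least `(p+1)/2` and then the digit of `M` must be the larger one. -/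
def chk (p N : ℕ) : ℕ → ℕ → ℕ → ℕ → Bool
  | 0, a, M, z => z == 0 && decide (dg p a < M % p)
  | f + 1, a, M, z =>
      chk p N f (nx p N a) (M / p) (if p + 1 ≤ 2 * dg p a then z - 1 else z)

/-- The counterexample. -/
def n0 : ℕ := 2346847231029325921

end H43Sun
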