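import Mathlib
import Pool.Agent.H43Sun.Defs

set_option autoImplicit false

/-! From the `p`-adic integers to the numerator of `S(n)`. -/

namespace H43Sun

open Finset

private theorem gbinom_mul (n k : ℕ) :
    gbinom (-1 / ((n : ℚ) + 1)) k * (∏ i ∈ range k, (((i : ℚ) + 1) * ((n : ℚ) + 1))) =
      (-1) ^ k * ∏ i ∈ range k, (1 + (i : ℚ) * ((n : ℚ) + 1)) := by
  have hN0 : ((n : ℚ) + 1) ≠ 0 := by positivity
  have hk : ((k.factorial : ℕ) : ℚ) ≠ 0 := by exact_mod_cast k.factorial_ne_zero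
  have hf : ∏ i ∈ range k, ((i : ℚ) + 1) = ((k.factorial : ℕ) : ℚ) := by
    exact_mod_cast congrArg (Nat.cast (R := ℚ)) (Finset.prod_range_add_one_eq_factorial k)
  unfold gbinom
  rw [prod_mul_distrib, hf, ← mul_assoc, div_mul_cancel₀ _ hk, ← prod_mul_distrib]
  have hc : ((-1 : ℚ)) ^ k = ∏ _i ∈ range k, (-1 : ℚ) := by
    rw [prod_const, card_range]
  rw [hc, ← prod_mul_distrib]
  refine prod_congr rfl fun i _ => ?_
  field_simp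
  ring

private theorem gbinom_cast (p : ℕ) [hp : Fact p.Prime] (n k : ℕ) (z : ℤ_[p])
    (hz : pden p (n + 1) k * z = pnum p (n + 1) 1 k) :
    ((gbinom (-1 / ((n : ℚ) + 1)) k : ℚ) : ℚ_[p]) = (-1) ^ k * (z : ℚ_[p]) := by
  have hq := congrArg (fun x : ℚ => (x : ℚ_[p])) (gbinom_mul n k)
  simp only [Rat.cast_mul, Rat.cast_pow, Rat.cast_neg, Rat.cast_one, Rat.cast_prod,
    Rat.cast_add, Rat.cast_natCast] at hq
  have hz' := congrArg (fun x : ℤ_[p] => (x : ℚ_[p])) hz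
  simp only [pden, pnum, PadicInt.coe_mul] at hz'
  have e1 : ((∏ i ∈ range k, (((i : ℤ_[p]) + 1) * ((n + 1 : ℕ) : ℤ_[p])) : ℤ_[p]) : ℚ_[p]) =
      ∏ i ∈ range k, (((i : ℚ_[p]) + 1) * ((n : ℚ_[p]) + 1)) := by
    rw [← PadicInt.Coe.ringHom_apply, map_prod]
    refine prod_congr rfl fun i _ => ?_
    rw [PadicInt.Coe.ringHom_apply]
    push_cast
    ring
  have e2 : ((∏ i ∈ range k, (((1 : ℕ) : ℤ_[p]) + (i : ℤ_[p]) * ((n + 1 : ℕ) : ℤ_[p])) : ℤ_[p]) :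
      ℚ_[p]) = ∏ i ∈ range k, (1 + (i : ℚ_[p]) * ((n : ℚ_[p]) + 1)) := by
    rw [← PadicInt.Coe.ringHom_apply, map_prod]
    refine prod_congr rfl fun i _ => ?_
    rw [PadicInt.Coe.ringHom_apply]
    push_cast
    ring
  rw [e1, e2] at hz'
  have hne : ∏ i ∈ range k, (((i : ℚ_[p]) + 1) * ((n : ℚ_[p]) + 1)) ≠ 0 := by
    rw [prod_ne_zero_iff]
    intro i _
    have h1 : (((i + 1) * (n + 1) : ℕ) : ℚ_[p]) ≠ 0 :=
      Nat.cast_ne_zero.2 (Nat.mul_ne_zero (Nat.succ_ne_zero i) (Nat.succ_ne_zero n))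
    push_cast at h1
    exact h1
  apply mul_right_cancel₀ hne
  rw [hq, ← hz']
  ring

theorem link (p : ℕ) [Fact p.Prime] (n : ℕ) (hn : p ∣ n) (hev : Even (n + 1))
    (b : ℕ → ℤ_[p]) (hb : ∀ k, pden p (n + 1) k * b k = pnum p (n + 1) 1 k)
    (h : (p : ℤ_[p]) ^ 5 ∣ ∑ k ∈ range n, b k ^ (n + 1)) : (p : ℤ) ^ 5 ∣ (S n).num := by
  obtain ⟨c, hc⟩ := h
  have hS : ((S n : ℚ) : ℚ_[p]) = ((∑ k ∈ range n, b k ^ (n + 1) : ℤ_[p]) : ℚ_[p]) := by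
    unfold S
    rw [Rat.cast_sum, ← PadicInt.Coe.ringHom_apply, map_sum]
    refine sum_congr rfl fun k _ => ?_
    rw [PadicInt.Coe.ringHom_apply, PadicInt.coe_pow, Rat.cast_pow, gbinom_cast p n k (b k) (hb k),
      mul_pow, ← pow_mul, mul_comm k (n + 1), pow_mul, hev.neg_one_pow, one_pow, one_mul]
  have hnorm : ‖((S n : ℚ) : ℚ_[p])‖ ≤ (p : ℝ) ^ (-(5 : ℕ) : ℤ) := by
    rw [hS, hc, PadicInt.coe_mul, norm_mul, PadicInt.coe_pow, norm_pow, PadicInt.coe_natCast,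
      Padic.norm_p]
    have h1 : ‖(c : ℚ_[p])‖ ≤ 1 := c.2
    have h2 : (0 : ℝ) ≤ ((p : ℝ)⁻¹) ^ 5 := by positivity
    calc ((p : ℝ)⁻¹) ^ 5 * ‖(c : ℚ_[p])‖ ≤ ((p : ℝ)⁻¹) ^ 5 * 1 :=
          mul_le_mul_of_nonneg_left h1 h2
      _ = (p : ℝ) ^ (-(5 : ℕ) : ℤ) := by
          rw [mul_one, zpow_neg, zpow_natCast, inv_pow]
  have hnum : (((S n).num : ℤ) : ℚ_[p]) = ((S n : ℚ) : ℚ_[p]) * (((S n).den : ℕ) : ℚ_[p]) := by
    have h1 : ((S n).num : ℚ) = S n * ((S n).den : ℚ) := (Rat.mul_den_eq_num (S n)).symm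
    have h2 := congrArg (fun x : ℚ => (x : ℚ_[p])) h1
    simp only [Rat.cast_mul, Rat.cast_intCast, Rat.cast_natCast] at h2
    exact h2
  have hden : ‖(((S n).den : ℕ) : ℚ_[p])‖ ≤ 1 := by
    have := Padic.norm_int_le_one (p := p) (((S n).den : ℕ) : ℤ)
    simpa using this
  rw [← Padic.norm_int_le_pow_iff_dvd (p := p) ((S n).num) 5, hnum, norm_mul]
  calc ‖((S n : ℚ) : ℚ_[p])‖ * ‖(((S n).den : ℕ) : ℚ_[p])‖
      ≤ (p : ℝ) ^ (-(5 : ℕ) : ℤ) * 1 :=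
        mul_le_mul hnorm hden (norm_nonneg _) (by positivity)
    _ = (p : ℝ) ^ (-(5 : ℕ) : ℤ) := mul_one _

end H43Sun
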