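import Mathlib

set_option autoImplicit false

/-!
# H43Sun/Stub37: two congruence lemmas

`phi_poly`: a product over all residues except one, modulo `p`.
`digit_sum`: one digit of the sum of the powers of binomial coefficients vanishes modulo `p`.
-/

namespace H43Sun

open Finset Polynomial

private theorem prod_erase_zero (p : ℕ) [Fact p.Prime] (u : ℕ) (hu : u < p) :
    ∏ s ∈ (range p).erase u, (C ((s : ZMod p) - (u : ZMod p)) + X : (ZMod p)[X]) =
      ∏ z ∈ (Finset.univ : Finset (ZMod p)).erase 0, (C z + X) := by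
  refine Finset.prod_nbij (fun s : ℕ => ((s : ZMod p) - (u : ZMod p))) ?_ ?_ ?_ ?_
  · intro s hs
    rw [Finset.mem_erase, Finset.mem_range] at hs
    rw [Finset.mem_erase]
    refine ⟨fun h => hs.1 ?_, Finset.mem_univ _⟩
    have h1 : (s : ZMod p) = (u : ZMod p) := sub_eq_zero.1 h
    rw [ZMod.natCast_eq_natCast_iff] at h1
    exact Nat.ModEq.eq_of_lt_of_lt h1 hs.2 hu
  · intro s hs s' hs' h
    rw [Finset.mem_coe, Finset.mem_erase, Finset.mem_range] at hs hs'
    have h1 : (s : ZMod p) = (s' : ZMod p) := sub_left_injective h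
    rw [ZMod.natCast_eq_natCast_iff] at h1
    exact Nat.ModEq.eq_of_lt_of_lt h1 hs.2 hs'.2
  · intro z hz
    rw [Finset.mem_coe, Finset.mem_erase] at hz
    have hs : (((z + (u : ZMod p)).val : ℕ) : ZMod p) = z + (u : ZMod p) :=
      ZMod.natCast_zmod_val _
    refine ⟨(z + (u : ZMod p)).val, ?_, ?_⟩
    · rw [Finset.mem_coe, Finset.mem_erase, Finset.mem_range]
      refine ⟨fun h => hz.1 ?_, ZMod.val_lt _⟩
      rw [h] at hs
      have := hs.symm
      rwa [add_eq_right] at this
    · simp only [hs, add_sub_cancel_right]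
  · intro s _
    rfl

private theorem prod_succ_zero (p : ℕ) [Fact p.Prime] :
    ∏ s ∈ range (p - 1), (C ((s : ZMod p) + 1) + X : (ZMod p)[X]) =
      ∏ z ∈ (Finset.univ : Finset (ZMod p)).erase 0, (C z + X) := by
  have hp : p.Prime := Fact.out
  have h2 := hp.two_le
  refine Finset.prod_nbij (fun s : ℕ => ((s : ZMod p) + 1)) ?_ ?_ ?_ ?_
  · intro s hs
    rw [Finset.mem_range] at hs
    rw [Finset.mem_erase]
    refine ⟨fun h => ?_, Finset.mem_univ _⟩
    have h1 : ((s + 1 : ℕ) : ZMod p) = 0 := by push_cast; exact h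
    rw [ZMod.natCast_eq_zero_iff] at h1
    exact absurd (Nat.le_of_dvd (by omega) h1) (by omega)
  · intro s hs s' hs' h
    rw [Finset.mem_coe, Finset.mem_range] at hs hs'
    have h1 : (s : ZMod p) = (s' : ZMod p) := add_left_injective _ h
    rw [ZMod.natCast_eq_natCast_iff] at h1
    exact Nat.ModEq.eq_of_lt_of_lt h1 (by omega) (by omega)
  · intro z hz
    rw [Finset.mem_coe, Finset.mem_erase] at hz
    have hpos : 0 < z.val := by
      rw [Nat.pos_iff_ne_zero]
      intro h
      exact hz.1 ((ZMod.val_eq_zero z).1 h)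
    have hlt := ZMod.val_lt z
    refine ⟨z.val - 1, ?_, ?_⟩
    · rw [Finset.mem_coe, Finset.mem_range]
      omega
    · have h1 : ((z.val - 1 + 1 : ℕ) : ZMod p) = z := by
        rw [Nat.sub_add_cancel hpos, ZMod.natCast_zmod_val]
      push_cast at h1
      exact h1
  · intro s _
    rfl

theorem phi_poly (p : ℕ) (hp : p.Prime) (N a u : ℕ) (hN : N % p = 1) (hu : u < p)
    (hau : p ∣ a + u) : ∃ Q : ℤ[X],
      ∏ s ∈ (range p).erase u, (C ((a : ℤ) + s * N) + C (N : ℤ) * X) =
        ∏ s ∈ range (p - 1), (C (((s : ℤ) + 1) * N) + C (N : ℤ) * X) + C (p : ℤ) * Q := by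
  haveI : Fact p.Prime := ⟨hp⟩
  have hN1 : (N : ZMod p) = 1 := by
    have h : ((N % p : ℕ) : ZMod p) = (N : ZMod p) := ZMod.natCast_mod N p
    rw [← h, hN, Nat.cast_one]
  have ha : (a : ZMod p) = -(u : ZMod p) := by
    have h : ((a + u : ℕ) : ZMod p) = 0 := (ZMod.natCast_eq_zero_iff _ _).2 hau
    push_cast at h
    exact eq_neg_of_add_eq_zero_left h
  set L : ℤ[X] := ∏ s ∈ (range p).erase u, (C ((a : ℤ) + s * N) + C (N : ℤ) * X) with hL
  set R : ℤ[X] := ∏ s ∈ range (p - 1), (C (((s : ℤ) + 1) * N) + C (N : ℤ) * X) with hR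
  have hmap : L.map (Int.castRingHom (ZMod p)) = R.map (Int.castRingHom (ZMod p)) := by
    rw [hL, hR, Polynomial.map_prod, Polynomial.map_prod]
    have e1 : ∀ s : ℕ, (C ((a : ℤ) + s * N) + C (N : ℤ) * X : ℤ[X]).map
        (Int.castRingHom (ZMod p)) = C ((s : ZMod p) - (u : ZMod p)) + X := by
      intro s
      rw [Polynomial.map_add, Polynomial.map_mul, Polynomial.map_C, Polynomial.map_C,
        Polynomial.map_X]
      simp only [eq_intCast, Int.cast_add, Int.cast_mul, Int.cast_natCast, hN1, ha, mul_one,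
        map_one, one_mul]
      rw [neg_add_eq_sub]
    have e2 : ∀ s : ℕ, (C (((s : ℤ) + 1) * N) + C (N : ℤ) * X : ℤ[X]).map
        (Int.castRingHom (ZMod p)) = C ((s : ZMod p) + 1) + X := by
      intro s
      rw [Polynomial.map_add, Polynomial.map_mul, Polynomial.map_C, Polynomial.map_C,
        Polynomial.map_X]
      simp only [eq_intCast, Int.cast_add, Int.cast_mul, Int.cast_natCast, Int.cast_one, hN1,
        mul_one, map_one, one_mul]
    rw [Finset.prod_congr rfl (fun s _ => e1 s), Finset.prod_congr rfl (fun s _ => e2 s),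
      prod_erase_zero p u hu, prod_succ_zero p]
  have hdvd : C (p : ℤ) ∣ L - R := by
    rw [Polynomial.C_dvd_iff_dvd_coeff]
    intro i
    rw [← ZMod.intCast_zmod_eq_zero_iff_dvd]
    have h := congrArg (fun P => P.coeff i) hmap
    simp only [Polynomial.coeff_map, eq_intCast] at h
    rw [Polynomial.coeff_sub]
    push_cast
    rw [h, sub_self]
  obtain ⟨Q, hQ⟩ := hdvd
  exact ⟨Q, by rw [← hQ]; ring⟩

theorem digit_sum (p : ℕ) [Fact p.Prime] (hp2 : p ≠ 2) (e t u : ℕ) (he : Even e)
    (het : e = 2 + (p - 1) * t) (hu : u < p) (h2 : p + 1 ≤ 2 * u) (α β : ZMod p) :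
    ∑ w ∈ range (u + 1), ((-1 : ZMod p) ^ w * (u.choose w : ZMod p)) ^ e * (α + β * w) = 0 := by
  have hp : p.Prime := Fact.out
  -- the square of the binomial coefficient
  have hterm : ∀ w ∈ range (u + 1),
      ((-1 : ZMod p) ^ w * (u.choose w : ZMod p)) ^ e * (α + β * w) =
        ((u.choose w : ZMod p)) ^ 2 * (α + β * w) := by
    intro w hw
    rw [Finset.mem_range] at hw
    have hw' : w ≤ u := by omega
    have hc : (u.choose w : ZMod p) ≠ 0 := by
      intro h
      rw [ZMod.natCast_eq_zero_iff] at h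
      have h1 : p ∣ u.factorial := by
        rw [← Nat.choose_mul_factorial_mul_factorial hw']
        exact Dvd.dvd.mul_right (Dvd.dvd.mul_right h _) _
      exact absurd ((hp.dvd_factorial).1 h1) (by omega)
    congr 1
    rw [mul_pow, ← pow_mul, mul_comm w e, pow_mul, he.neg_one_pow, one_pow, one_mul, het,
      pow_add, pow_mul, ZMod.pow_card_sub_one_eq_one hc, one_pow, mul_one]
  rw [Finset.sum_congr rfl hterm]
  -- the sum of the squares
  have hsq : ∑ w ∈ range (u + 1), ((u.choose w : ZMod p)) ^ 2 = 0 := by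
    have h1 : ∑ w ∈ range (u + 1), (u.choose w) ^ 2 = (u + u).choose u := by
      rw [Nat.add_choose_eq, Finset.Nat.sum_antidiagonal_eq_sum_range_succ_mk]
      refine Finset.sum_congr rfl fun w hw => ?_
      rw [Finset.mem_range] at hw
      rw [sq, Nat.choose_symm (by omega : w ≤ u)]
    have h3 : p ∣ (u + u).choose u := by
      have h4 : (u + u).choose u * u.factorial * u.factorial = (u + u).factorial := by
        have := Nat.choose_mul_factorial_mul_factorial (show u ≤ u + u by omega)
        rwa [Nat.add_sub_cancel] at this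
      have h5 : p ∣ (u + u).choose u * u.factorial * u.factorial := by
        rw [h4, hp.dvd_factorial]
        omega
      have h6 : ¬ p ∣ u.factorial := by
        rw [hp.dvd_factorial]
        omega
      rcases hp.dvd_mul.1 h5 with h | h
      · rcases hp.dvd_mul.1 h with h | h
        · exact h
        · exact absurd h h6
      · exact absurd h h6
    have h4 : ((∑ w ∈ range (u + 1), (u.choose w) ^ 2 : ℕ) : ZMod p) = 0 := by
      rw [h1, ZMod.natCast_eq_zero_iff]
      exact h3
    push_cast at h4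
    exact h4
  -- the first moment
  have hmom : ∑ w ∈ range (u + 1), ((u.choose w : ZMod p)) ^ 2 * (w : ZMod p) = 0 := by
    have hr : ∑ w ∈ range (u + 1), ((u.choose w : ZMod p)) ^ 2 * (w : ZMod p) =
        ∑ w ∈ range (u + 1), ((u.choose w : ZMod p)) ^ 2 * ((u : ZMod p) - (w : ZMod p)) := by
      rw [← Finset.sum_range_reflect]
      refine Finset.sum_congr rfl fun w hw => ?_
      rw [Finset.mem_range] at hw
      have e1 : u + 1 - 1 - w = u - w := by omega
      rw [e1, Nat.choose_symm (by omega : w ≤ u), Nat.cast_sub (by omega : w ≤ u)]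
    have h5 : (2 : ZMod p) * ∑ w ∈ range (u + 1), ((u.choose w : ZMod p)) ^ 2 * (w : ZMod p) = 0 := by
      have h6 : ∑ w ∈ range (u + 1), ((u.choose w : ZMod p)) ^ 2 * ((u : ZMod p) - (w : ZMod p)) =
          (u : ZMod p) * ∑ w ∈ range (u + 1), ((u.choose w : ZMod p)) ^ 2 -
            ∑ w ∈ range (u + 1), ((u.choose w : ZMod p)) ^ 2 * (w : ZMod p) := by
        rw [Finset.mul_sum, ← Finset.sum_sub_distrib]
        exact Finset.sum_congr rfl fun w _ => by ring
      rw [hsq, mul_zero, zero_sub] at h6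
      rw [h6] at hr
      linear_combination hr
    have h7 : (2 : ZMod p) ≠ 0 := by
      intro h
      have h8 : ((2 : ℕ) : ZMod p) = 0 := by exact_mod_cast h
      rw [ZMod.natCast_eq_zero_iff] at h8
      have := Nat.le_of_dvd (by norm_num) h8
      have := hp.two_le
      omega
    exact (mul_eq_zero.1 h5).resolve_left h7
  have hfin : ∑ w ∈ range (u + 1), ((u.choose w : ZMod p)) ^ 2 * (α + β * w) =
      α * ∑ w ∈ range (u + 1), ((u.choose w : ZMod p)) ^ 2 +
        β * ∑ w ∈ range (u + 1), ((u.choose w : ZMod p)) ^ 2 * (w : ZMod p) := by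
    rw [Finset.mul_sum, Finset.mul_sum, ← Finset.sum_add_distrib]
    exact Finset.sum_congr rfl fun w _ => by ring
  rw [hfin, hsq, hmom, mul_zero, mul_zero, add_zero]

end H43Sun
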