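import Mathlib
import Pool.Agent.H43Sun.Terms
import Pool.Agent.H43Sun.Stub37

/-! The weights produced by summing over one base-`p` digit. -/

namespace H43Sun

open Finset

section
variable (p : ℕ) [hp : Fact p.Prime] (N a : ℕ)

theorem p_ne_zero' : (p : ℤ_[p]) ≠ 0 := by exact_mod_cast hp.out.ne_zero

theorem dvd_of_toZMod_eq_zero {x : ℤ_[p]} (h : PadicInt.toZMod x = 0) : (p : ℤ_[p]) ∣ x := by
  have h1 : x ∈ RingHom.ker (PadicInt.toZMod : ℤ_[p] →+* ZMod p) := h
  rw [PadicInt.ker_toZMod, PadicInt.maximalIdeal_eq_span_p, Ideal.mem_span_singleton] at h1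
  exact h1

theorem toZMod_p_mul (x : ℤ_[p]) : PadicInt.toZMod ((p : ℤ_[p]) * x) = 0 := by
  rw [map_mul, map_natCast, CharP.cast_eq_zero, zero_mul]

theorem toZMod_N (hN : N % p = 1) : ((N : ℕ) : ZMod p) = 1 := by
  have := (ZMod.natCast_eq_natCast_iff' N 1 p).2
    (by rw [hN, Nat.mod_eq_of_lt hp.out.one_lt])
  simpa using this

theorem ac_dd (w : ℕ) : Ac (p : ℤ_[p]) (fun c => dd p N w c) := by
  unfold dd
  exact Ac.prod _ fun s _ => Ac.lin _ _

theorem ac_nn (w : ℕ) : Ac (p : ℤ_[p]) (fun c => nn p N a w c) := by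
  unfold nn
  exact Ac.prod _ fun s _ => Ac.lin _ _

theorem ac_inv_dd (hN : N % p = 1) (w : ℕ) (hw : w < p) :
    Ac (p : ℤ_[p]) (fun c => Ring.inverse (dd p N w c)) :=
  (ac_dd p N w).inv fun c => Ring.mul_inverse_cancel _ (isUnit_dd p N hN w hw c)

theorem ac_psi (hN : N % p = 1) (w : ℕ) (hw : w < p) :
    Ac (p : ℤ_[p]) (fun c => psi p N a w c) :=
  (ac_nn p N a w).mul (ac_inv_dd p N hN w hw)

/-- One full block is `1 + p ψ` with `ψ` nice. -/
theorem exists_block (hN : N % p = 1) {u : ℕ} (hu : u < p) (hau : p ∣ a + u) :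
    ∃ ψ : ℕ → ℤ_[p], Ac (p : ℤ_[p]) ψ ∧
      ∀ c, num p N a u c * Ring.inverse (dd p N (p - 1) c) = 1 + p * ψ c := by
  have hp1 : 1 < p := hp.out.one_lt
  obtain ⟨Q, hQ⟩ := phi_poly p hp.out N a u hN hu hau
  refine ⟨fun c => Polynomial.eval₂ (Int.castRingHom ℤ_[p]) ((p : ℤ_[p]) * (c : ℤ_[p])) Q *
    Ring.inverse (dd p N (p - 1) c), (Ac.poly Q).mul (ac_inv_dd p N hN (p - 1) (by omega)), ?_⟩
  intro c
  have h1 := congrArg (Polynomial.eval₂ (Int.castRingHom ℤ_[p]) ((p : ℤ_[p]) * (c : ℤ_[p]))) hQ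
  rw [Polynomial.eval₂_finsetProd, Polynomial.eval₂_add, Polynomial.eval₂_finsetProd,
    Polynomial.eval₂_mul, Polynomial.eval₂_C] at h1
  simp only [Polynomial.eval₂_add, Polynomial.eval₂_mul, Polynomial.eval₂_C,
    Polynomial.eval₂_X] at h1
  have e1 : num p N a u c = ∏ s ∈ (range p).erase u,
      ((Int.castRingHom ℤ_[p]) ((a : ℤ) + s * N) +
        (Int.castRingHom ℤ_[p]) (N : ℤ) * ((p : ℤ_[p]) * c)) := by
    unfold num
    refine prod_congr rfl fun s _ => ?_
    simp only [eq_intCast]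
    push_cast; ring
  have e2 : dd p N (p - 1) c = ∏ s ∈ range (p - 1),
      ((Int.castRingHom ℤ_[p]) (((s : ℤ) + 1) * N) +
        (Int.castRingHom ℤ_[p]) (N : ℤ) * ((p : ℤ_[p]) * c)) := by
    unfold dd
    refine prod_congr rfl fun s _ => ?_
    simp only [eq_intCast]
    push_cast; ring
  have hunit := isUnit_dd p N hN (p - 1) (by omega) c
  rw [e1, h1, ← e2, add_mul, Ring.mul_inverse_cancel _ hunit]
  simp only [eq_intCast, Int.cast_natCast]
  ring

theorem ac_gam (hN : N % p = 1) {u : ℕ} (hu : u < p) (hau : p ∣ a + u) :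
    Ac (p : ℤ_[p]) (fun c => gam p N a u c) := by
  obtain ⟨ψ, hψ, h⟩ := exists_block p N a hN hu hau
  refine Ac.cumprod (ψ := ψ) (fun c => ?_) hψ
  show gam p N a u (c + 1) = gam p N a u c * (1 + p * ψ c)
  unfold gam
  rw [prod_range_succ, h c]

theorem toZMod_gam (hN : N % p = 1) {u : ℕ} (hu : u < p) (hau : p ∣ a + u) (c : ℕ) :
    PadicInt.toZMod (gam p N a u c) = 1 := by
  obtain ⟨ψ, -, h⟩ := exists_block p N a hN hu hau
  induction c with
  | zero => simp [gam]
  | succ c ih =>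
    have : gam p N a u (c + 1) = gam p N a u c * (1 + p * ψ c) := by
      unfold gam
      rw [prod_range_succ, h c]
    rw [this, map_mul, ih, map_add, map_one, toZMod_p_mul]
    ring

theorem toZMod_psi (hN : N % p = 1) {u : ℕ} (hu : u < p) (hau : p ∣ a + u) {w : ℕ} (hw : w ≤ u)
    (c : ℕ) : PadicInt.toZMod (psi p N a w c) = (-1) ^ w * (u.choose w : ZMod p) := by
  have hN1 := toZMod_N p N hN
  have hunit := isUnit_dd p N hN w (by omega) c
  have h1 : psi p N a w c * dd p N w c = nn p N a w c := by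
    unfold psi
    rw [mul_assoc, Ring.inverse_mul_cancel _ hunit, mul_one]
  have ha1 : ((a : ℕ) : ZMod p) = - (u : ZMod p) := by
    have : ((a + u : ℕ) : ZMod p) = 0 := (ZMod.natCast_eq_zero_iff _ _).2 hau
    push_cast at this
    exact eq_neg_of_add_eq_zero_left this
  have h2 : PadicInt.toZMod (dd p N w c) = (w.factorial : ZMod p) := by
    unfold dd
    rw [map_prod, ← Finset.prod_range_add_one_eq_factorial]
    push_cast
    refine prod_congr rfl fun s _ => ?_
    rw [map_add, mul_assoc (p : ℤ_[p]), toZMod_p_mul]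
    simp [hN1]
  have h3 : PadicInt.toZMod (nn p N a w c) =
      (-1) ^ w * ((w.factorial * u.choose w : ℕ) : ZMod p) := by
    unfold nn
    rw [map_prod, ← Nat.descFactorial_eq_factorial_mul_choose,
      Nat.descFactorial_eq_prod_range, Nat.cast_prod]
    have : ((-1 : ZMod p)) ^ w = ∏ _s ∈ range w, (-1 : ZMod p) := by simp
    rw [this, ← prod_mul_distrib]
    refine prod_congr rfl fun s hs => ?_
    have hs' : s < w := by simpa using hs
    rw [map_add, mul_assoc (p : ℤ_[p]), toZMod_p_mul, Nat.cast_sub (by omega)]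
    simp [hN1, ha1]
    ring
  have h4 := congrArg PadicInt.toZMod h1
  rw [map_mul, h2, h3] at h4
  have hf : (w.factorial : ZMod p) ≠ 0 := by
    intro h0
    rw [ZMod.natCast_eq_zero_iff, Nat.Prime.dvd_factorial hp.out] at h0
    omega
  apply mul_right_cancel₀ hf
  rw [h4]; push_cast; ring

/-- Weights: the difference is nice. -/
def Wc (W : ℕ → ℤ_[p]) : Prop := ∃ g : ℕ → ℤ_[p], (∀ k, W (k + 1) = W k + g k) ∧
  Ac (p : ℤ_[p]) g

theorem Wc.one : Wc p (fun _ => 1) := ⟨fun _ => 0, fun _ => by simp, Ac.const 0⟩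

theorem Wc.affine {W : ℕ → ℤ_[p]} (hW : Wc p W) :
    ∃ α β : ZMod p, ∀ k : ℕ, PadicInt.toZMod (W k) = α + β * k := by
  obtain ⟨g, hg, hA⟩ := hW
  obtain ⟨g', hg', -⟩ := hA 1
  refine ⟨PadicInt.toZMod (W 0), PadicInt.toZMod (g 0), fun k => ?_⟩
  have hgk : ∀ k, PadicInt.toZMod (g k) = PadicInt.toZMod (g 0) := by
    intro k
    induction k with
    | zero => rfl
    | succ k ih => rw [hg' k, map_add, toZMod_p_mul, ih, add_zero]
  induction k with
  | zero => simp
  | succ k ih => rw [hg k, map_add, ih, hgk k]; push_cast; ring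

/-- The new weight after summing over one digit. -/
noncomputable def newW (u e : ℕ) (W : ℕ → ℤ_[p]) (c : ℕ) : ℤ_[p] :=
  ∑ w ∈ range (u + 1), (gam p N a u c * psi p N a w c) ^ e * W (p * c + w)

theorem ac_newW (hN : N % p = 1) {u : ℕ} (hu : u < p) (hau : p ∣ a + u) (e : ℕ)
    {W : ℕ → ℤ_[p]} (hW : Wc p W) : Ac (p : ℤ_[p]) (newW p N a u e W) := by
  obtain ⟨g, hg, hA⟩ := hW
  refine Ac.sum _ fun w hw => ?_
  have hw' : w < p := by
    have : w < u + 1 := by simpa using hw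
    omega
  exact (((ac_gam p N a hN hu hau).mul (ac_psi p N a hN w hw')).pow e).mul
    (Ac.dil_one p rfl hg hA w)

theorem wc_newW (hN : N % p = 1) {u : ℕ} (hu : u < p) (hau : p ∣ a + u) (e : ℕ)
    {W : ℕ → ℤ_[p]} (hW : Wc p W) : Wc p (newW p N a u e W) := by
  obtain ⟨g, hg, hA⟩ := (ac_newW p N a hN hu hau e hW).exists_diff (p_ne_zero' p)
  exact ⟨fun k => p * g k, hg, hA.smul _⟩

theorem newW_div (hN : N % p = 1) {u : ℕ} (hu : u < p) (hau : p ∣ a + u) (hp2 : p ≠ 2)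
    {e t : ℕ} (he : Even e) (het : e = 2 + (p - 1) * t) (h2 : p + 1 ≤ 2 * u)
    {W : ℕ → ℤ_[p]} (hW : Wc p W) :
    ∃ W' : ℕ → ℤ_[p], (∀ c, newW p N a u e W c = p * W' c) ∧ Wc p W' := by
  obtain ⟨α, β, hαβ⟩ := hW.affine
  have hdvd : ∀ c, (p : ℤ_[p]) ∣ newW p N a u e W c := by
    intro c
    apply dvd_of_toZMod_eq_zero
    unfold newW
    rw [map_sum, ← digit_sum p hp2 e t u he het hu h2 α β]
    refine sum_congr rfl fun w hw => ?_
    have hw' : w ≤ u := by
      have : w < u + 1 := by simpa using hw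
      omega
    rw [map_mul, map_pow, map_mul, toZMod_gam p N a hN hu hau, toZMod_psi p N a hN hu hau hw',
      hαβ, one_mul, Nat.cast_add, Nat.cast_mul, ZMod.natCast_self, zero_mul, zero_add]
  choose W' hW' using hdvd
  refine ⟨W', hW', ?_⟩
  obtain ⟨g, hg, hA⟩ := (ac_newW p N a hN hu hau e hW).exists_diff (p_ne_zero' p)
  refine ⟨g, fun k => ?_, hA⟩
  have h := hg k
  rw [hW' k, hW' (k + 1), ← mul_add] at h
  exact mul_left_cancel₀ (p_ne_zero' p) h

end

end H43Sun
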