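import Mathlib
import Pool.Agent.H43Sun.Weights
import Pool.Agent.H43Sun.Defs

/-! The digit theorem: large digits of `-a/N` give factors `p` of the power sums. -/

namespace H43Sun

open Finset

section
variable (p : ℕ) [hp : Fact p.Prime] (N : ℕ)

theorem sum_blocks (f : ℕ → ℤ_[p]) (P M : ℕ) :
    ∑ k ∈ range (P * M), f k = ∑ c ∈ range M, ∑ w ∈ range P, f (P * c + w) := by
  induction M with
  | zero => simp
  | succ M ih => rw [show P * (M + 1) = P * M + P by ring, sum_range_add, ih, sum_range_succ]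

theorem bz_dvd_of_quot (hN : N % p = 1) {a M : ℕ}
    (h : (p : ℤ_[p]) ∣ bz p N (nx p N a) hN (M / p)) : (p : ℤ_[p]) ∣ bz p N a hN M := by
  have h1 := bz_factor p N a hN (M / p) (M % p) (Nat.mod_lt _ hp.out.pos)
  rw [Nat.div_add_mod] at h1
  rw [h1, mul_assoc]
  exact Dvd.dvd.mul_right h _

theorem bz_dvd_of_digit (hN : N % p = 1) {a M : ℕ} (h : dg p a < M % p) :
    (p : ℤ_[p]) ∣ bz p N a hN M := by
  have h1 := bz_factor p N a hN (M / p) (M % p) (Nat.mod_lt _ hp.out.pos)
  rw [Nat.div_add_mod] at h1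
  rw [h1]
  exact Dvd.dvd.mul_left (dvd_psi p N a hN _ _ h) _

theorem term_dvd {x W : ℤ_[p]} {e : ℕ} (he : 5 ≤ e) (h : (p : ℤ_[p]) ∣ x) :
    (p : ℤ_[p]) ^ 5 ∣ x ^ e * W :=
  Dvd.dvd.mul_right ((pow_dvd_pow _ he).trans (pow_dvd_pow_of_dvd h e)) _

/-- One step of the reduction. -/
theorem step (hN : N % p = 1) (a M e : ℕ) (he : 5 ≤ e) (W : ℕ → ℤ_[p])
    (h : (p : ℤ_[p]) ∣ bz p N (nx p N a) hN (M / p)) :
    (p : ℤ_[p]) ^ 5 ∣ ∑ k ∈ range M, bz p N a hN k ^ e * W k -
      ∑ c ∈ range (M / p), bz p N (nx p N a) hN c ^ e * newW p N a (dg p a) e W c := by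
  have hp0 : 0 < p := hp.out.pos
  have hu : dg p a < p := dg_lt hp0 a
  have e0 : ∑ k ∈ range M, bz p N a hN k ^ e * W k =
      ∑ k ∈ range (p * (M / p)), bz p N a hN k ^ e * W k +
        ∑ r ∈ range (M % p), bz p N a hN (p * (M / p) + r) ^ e * W (p * (M / p) + r) := by
    rw [← sum_range_add, Nat.div_add_mod]
  rw [e0, sum_blocks, add_sub_right_comm, ← sum_sub_distrib]
  refine dvd_add ?_ ?_
  · refine dvd_sum fun c _ => ?_
    have e1 : ∑ w ∈ range p, bz p N a hN (p * c + w) ^ e * W (p * c + w) =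
        ∑ w ∈ range (dg p a + 1), bz p N a hN (p * c + w) ^ e * W (p * c + w) +
        ∑ w ∈ range (p - (dg p a + 1)), bz p N a hN (p * c + (dg p a + 1 + w)) ^ e *
          W (p * c + (dg p a + 1 + w)) := by
      rw [← sum_range_add (fun w => bz p N a hN (p * c + w) ^ e * W (p * c + w)),
        Nat.add_sub_cancel' (by omega)]
    have e2 : ∑ w ∈ range (dg p a + 1), bz p N a hN (p * c + w) ^ e * W (p * c + w) =
        bz p N (nx p N a) hN c ^ e * newW p N a (dg p a) e W c := by
      unfold newW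
      rw [mul_sum]
      refine sum_congr rfl fun w hw => ?_
      have hw' : w < dg p a + 1 := by simpa using hw
      rw [bz_factor p N a hN c w (by omega)]
      ring
    rw [e1, e2, add_sub_cancel_left]
    refine dvd_sum fun w hw => ?_
    have hw' : w < p - (dg p a + 1) := by simpa using hw
    refine term_dvd p he ?_
    rw [bz_factor p N a hN c _ (by omega)]
    exact Dvd.dvd.mul_left (dvd_psi p N a hN _ _ (by omega)) _
  · refine dvd_sum fun r hr => ?_
    have hr' : r < M % p := by simpa using hr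
    have hr2 : M % p < p := Nat.mod_lt _ hp0
    refine term_dvd p he ?_
    rw [bz_factor p N a hN _ _ (by omega), mul_assoc]
    exact Dvd.dvd.mul_right h _

/-- Soundness of the digit test. -/
theorem chk_sound (hp2 : p ≠ 2) (hN : N % p = 1) {e t : ℕ} (he5 : 5 ≤ e) (he : Even e)
    (het : e = 2 + (p - 1) * t) (f : ℕ) : ∀ a M z : ℕ, chk p N f a M z = true →
      (p : ℤ_[p]) ∣ bz p N a hN M ∧ (z ≤ 5 → ∀ W : ℕ → ℤ_[p], Wc p W →
        (p : ℤ_[p]) ^ z ∣ ∑ k ∈ range M, bz p N a hN k ^ e * W k) := by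
  have hp0 : 0 < p := hp.out.pos
  induction f with
  | zero =>
    intro a M z h
    simp only [chk, Bool.and_eq_true, beq_iff_eq, decide_eq_true_eq] at h
    obtain ⟨rfl, h⟩ := h
    exact ⟨bz_dvd_of_digit p N hN h, fun _ W _ => by simp⟩
  | succ f ih =>
    intro a M z h
    simp only [chk] at h
    obtain ⟨h1, h2⟩ := ih _ _ _ h
    refine ⟨bz_dvd_of_quot p N hN h1, fun hz W hW => ?_⟩
    have hu : dg p a < p := dg_lt hp0 a
    have hau := dvd_add_dg hp0 a
    have hstep := step p N hN a M e he5 W h1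
    have hstep' := (pow_dvd_pow (p : ℤ_[p]) hz).trans hstep
    suffices h9 : (p : ℤ_[p]) ^ z ∣ ∑ c ∈ range (M / p), bz p N (nx p N a) hN c ^ e *
        newW p N a (dg p a) e W c by
      have h10 := dvd_add hstep' h9
      rwa [sub_add_cancel] at h10
    by_cases hd : p + 1 ≤ 2 * dg p a
    · rw [if_pos hd] at h2
      obtain ⟨W', hW', hWc⟩ := newW_div p N a hN hu hau hp2 he het hd hW
      have h3 := h2 (by omega) W' hWc
      have e1 : ∑ c ∈ range (M / p), bz p N (nx p N a) hN c ^ e *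
          newW p N a (dg p a) e W c =
          p * ∑ c ∈ range (M / p), bz p N (nx p N a) hN c ^ e * W' c := by
        rw [mul_sum]
        refine sum_congr rfl fun c _ => ?_
        rw [hW' c]; ring
      rw [e1]
      refine (pow_dvd_pow (p : ℤ_[p]) (show z ≤ (z - 1) + 1 by omega)).trans ?_
      rw [pow_succ']
      exact mul_dvd_mul_left _ h3
    · rw [if_neg hd] at h2
      exact h2 hz _ (wc_newW p N a hN hu hau e hW)

end

end H43Sun
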