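import Mathlib
import Pool.Agent.H43Sun.Defs

/-! Numeric facts for the counterexample (MP_0ba4ac_nt). -/

namespace H43Sun

/-- The ten prime factors. -/
theorem n0_eq : n0 = 13 * 17 * 37 * 43 * 61 * 73 * 97 * 127 * 281 * 433 := by
  norm_num [n0]

theorem n0_facts : ∀ p ∈ ([13, 17, 37, 43, 61, 73, 97, 127, 281, 433] : List ℕ),
    p.Prime ∧ p ∣ n0 ∧ (n0 + 1) % p = 1 ∧ (∃ t, n0 + 1 = 2 + (p - 1) * t) := by
  intro p hp
  simp only [List.mem_cons, List.not_mem_nil, or_false] at hp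
  have key : ∀ q : ℕ, q.Prime → q ∣ n0 → n0 + 1 = 2 + (q - 1) * ((n0 - 1) / (q - 1)) →
      q.Prime ∧ q ∣ n0 ∧ (n0 + 1) % q = 1 ∧ (∃ t, n0 + 1 = 2 + (q - 1) * t) := by
    intro q hq hd ht
    refine ⟨hq, hd, ?_, _, ht⟩
    obtain ⟨c, hc⟩ := hd
    rw [hc, Nat.add_comm, Nat.add_mul_mod_self_left]
    exact Nat.mod_eq_of_lt hq.one_lt
  rcases hp with rfl | rfl | rfl | rfl | rfl | rfl | rfl | rfl | rfl | rfl <;>
    exact key _ (by norm_num) (by norm_num [n0]) (by norm_num [n0])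

theorem n0_chk :
    chk 13 (n0 + 1) 9 1 n0 5 = true ∧ chk 17 (n0 + 1) 10 1 n0 5 = true ∧
    chk 37 (n0 + 1) 8 1 n0 5 = true ∧ chk 43 (n0 + 1) 9 1 n0 5 = true ∧
    chk 61 (n0 + 1) 8 1 n0 5 = true ∧ chk 73 (n0 + 1) 9 1 n0 5 = true ∧
    chk 97 (n0 + 1) 7 1 n0 5 = true ∧ chk 127 (n0 + 1) 7 1 n0 5 = true ∧
    chk 281 (n0 + 1) 6 1 n0 5 = true ∧ chk 433 (n0 + 1) 6 1 n0 5 = true := by
  refine ⟨?_, ?_, ?_, ?_, ?_, ?_, ?_, ?_, ?_, ?_⟩ <;> rfl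

theorem n0_pow_dvd (z : ℤ)
    (h : ∀ p ∈ ([13, 17, 37, 43, 61, 73, 97, 127, 281, 433] : List ℕ), (p : ℤ) ^ 5 ∣ z) :
    (n0 : ℤ) ^ 5 ∣ z := by
  have h13 := h 13 (by simp)
  have h17 := h 17 (by simp)
  have h37 := h 37 (by simp)
  have h43 := h 43 (by simp)
  have h61 := h 61 (by simp)
  have h73 := h 73 (by simp)
  have h97 := h 97 (by simp)
  have h127 := h 127 (by simp)
  have h281 := h 281 (by simp)
  have h433 := h 433 (by simp)
  have cop : ∀ a b : ℕ, Nat.Coprime a b → (a : ℤ) ^ 5 ∣ z → (b : ℤ) ^ 5 ∣ z →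
      ((a * b : ℕ) : ℤ) ^ 5 ∣ z := by
    intro a b hab ha hb
    push_cast
    rw [mul_pow]
    exact IsCoprime.mul_dvd (IsCoprime.pow (Nat.isCoprime_iff_coprime.2 hab)) ha hb
  have e1 := cop _ _ (by norm_num) h13 h17
  have e2 := cop _ _ (by norm_num) e1 h37
  have e3 := cop _ _ (by norm_num) e2 h43
  have e4 := cop _ _ (by norm_num) e3 h61
  have e5 := cop _ _ (by norm_num) e4 h73
  have e6 := cop _ _ (by norm_num) e5 h97
  have e7 := cop _ _ (by norm_num) e6 h127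
  have e8 := cop _ _ (by norm_num) e7 h281
  have e9 := cop _ _ (by norm_num) e8 h433
  rw [n0_eq]
  exact e9

theorem n0_not_prime : ¬ n0.Prime := by
  intro h
  have h1 := (Nat.dvd_prime h).1 (show 13 ∣ n0 by norm_num [n0])
  rcases h1 with h1 | h1
  · omega
  · norm_num [n0] at h1

end H43Sun
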