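import Mathlib
import Pool.Agent.H43Sun.Main
import Pool.Agent.H43Sun.Link
import Pool.Agent.H43Sun.Numeric

/-! Assembly of the counterexample. -/

namespace H43Sun

open Finset

/-- If `p - 1 ∣ n - 1`, `p ∣ n`, and the digit test succeeds, then `p^5` divides the numerator. -/
theorem pow_dvd_num (p n J t : ℕ) (hp : p.Prime) (hp2 : p ≠ 2) (hn : p ∣ n) (h5 : 5 ≤ n + 1)
    (hN : (n + 1) % p = 1) (hev : Even (n + 1)) (ht : n + 1 = 2 + (p - 1) * t)
    (hc : chk p (n + 1) J 1 n 5 = true) : (p : ℤ) ^ 5 ∣ (S n).num := by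
  have : Fact p.Prime := ⟨hp⟩
  refine link p n hn hev (bz p (n + 1) 1 hN) (bz_spec p (n + 1) 1 hN) ?_
  have h := (chk_sound p (n + 1) hp2 hN h5 hev ht J 1 n 5 hc).2 le_rfl (fun _ => 1) (Wc.one p)
  simpa using h

theorem n0_even : Even (n0 + 1) := by decide +kernel

theorem n0_pow_dvd_num : (n0 : ℤ) ^ 5 ∣ (S n0).num := by
  obtain ⟨c1, c2, c3, c4, c5, c6, c7, c8, c9, c10⟩ := n0_chk
  have h5 : 5 ≤ n0 + 1 := by unfold n0; norm_num
  apply n0_pow_dvd
  have key : ∀ (p : ℕ) (J : ℕ), p ∈ [13,17,37,43,61,73,97,127,281,433] →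
      chk p (n0 + 1) J 1 n0 5 = true → (p : ℤ) ^ 5 ∣ (S n0).num := by
    intro p J hp hc
    obtain ⟨h1, h2, h3, t, h4⟩ := n0_facts p hp
    have hp2 : p ≠ 2 := by
      rintro rfl
      simp at hp
    exact pow_dvd_num p n0 J t h1 hp2 h2 h5 h3 n0_even h4 hc
  intro p hp
  have hp' := hp
  simp only [List.mem_cons, List.not_mem_nil, or_false] at hp'
  rcases hp' with rfl | rfl | rfl | rfl | rfl | rfl | rfl | rfl | rfl | rfl
  · exact key 13 9 hp c1
  · exact key 17 10 hp c2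
  · exact key 37 8 hp c3
  · exact key 43 9 hp c4
  · exact key 61 8 hp c5
  · exact key 73 9 hp c6
  · exact key 97 7 hp c7
  · exact key 127 7 hp c8
  · exact key 281 6 hp c9
  · exact key 433 6 hp c10

theorem S_pos (n : ℕ) (h1 : 0 < n) (hev : Even (n + 1)) : 0 < S n := by
  unfold S
  refine sum_pos' (fun k _ => hev.pow_nonneg _) ⟨0, by simpa using h1, ?_⟩
  simp [gbinom]

end H43Sun
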