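import Mathlib

/-! `n^5 ∣ num x` in terms of valuations. -/

namespace H43Sun

theorem coprime_of_dvd_num (n : ℕ) (x : ℚ) (h : (n : ℤ) ^ 5 ∣ x.num) : x.den.Coprime n := by
  have h1 : (n : ℤ) ∣ x.num := (dvd_pow_self _ (by norm_num)).trans h
  have h2 : n ∣ x.num.natAbs := by
    have := Int.natAbs_dvd_natAbs.2 h1
    simpa using this
  exact (Nat.Coprime.coprime_dvd_left h2 x.reduced).symm

theorem nu_of_dvd (n : ℕ) (x : ℚ) (hx : x ≠ 0) (h : (n : ℤ) ^ 5 ∣ x.num) (p : ℕ)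
    (hp : p.Prime) (hpn : p ∣ n) : 5 * (padicValNat p n : ℤ) ≤ padicValRat p x := by
  have : Fact p.Prime := ⟨hp⟩
  have hnum : x.num ≠ 0 := Rat.num_ne_zero.2 hx
  have hcop := coprime_of_dvd_num n x h
  have hpden : ¬ p ∣ x.den := by
    intro hd
    have : p ∣ 1 := by
      rw [← Nat.Coprime.gcd_eq_one hcop]
      exact Nat.dvd_gcd hd hpn
    exact hp.one_lt.ne' (Nat.dvd_one.1 this)
  have hn0 : n ≠ 0 := by
    rintro rfl
    simp at h
    exact hx h
  have h3 : n ^ 5 ∣ x.num.natAbs := by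
    have := Int.natAbs_dvd_natAbs.2 h
    simpa [Int.natAbs_pow] using this
  have h4 : padicValNat p (n ^ 5) ≤ padicValNat p x.num.natAbs :=
    (padicValNat_dvd_iff_le (Int.natAbs_ne_zero.2 hnum)).1
      ((pow_padicValNat_dvd (p := p) (n := n ^ 5)).trans h3)
  rw [padicValNat.pow] at h4
  rw [padicValRat_def, padicValNat.eq_zero_of_not_dvd hpden]
  unfold padicValInt
  push_cast
  have : ((5 * padicValNat p n : ℕ) : ℤ) ≤ (padicValNat p x.num.natAbs : ℤ) := by
    exact_mod_cast h4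
  push_cast at this
  linarith

end H43Sun
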